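import Pool.Agent.K6.H74.PK.MAIN
import Pool.Agent.K6.H74.PK.EX
import Pool.Agent.K6.H74.PK.PLQ
import Pool.Agent.K6.H74.PK.PLZ
import Pool.Agent.K6.H74.PK.SUR
import Pool.Agent.K6.H74.PK.MEET
import Pool.Agent.K6.H74.PK.RK
import Pool.Agent.K6.H74.PK.LC
import Pool.Agent.K6.H74.PK.EQA
import Pool.Agent.K6.H74.PK.EQB
import Pool.Agent.K6.H74.PK.TR
import Pool.Agent.K6.H74.PK.KEY
import Pool.Agent.K6.H74.PK.DEF1
import Pool.Agent.K6.H74.PK.CSC
import Pool.Agent.K6.H74.PK.COV
import Pool.Agent.K6.H74.PK.CAPS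
import Pool.Agent.K6.H74.PK.CONE
import Pool.Agent.K6.H74.PK.GC
import Pool.Agent.K6.H74.PK.LNS
import Pool.Agent.K6.H74.PK.CY1
import Pool.Agent.K6.H74.PK.CY2
import Pool.Agent.K6.H74.PK.DIS
import Pool.Agent.K6.H74.PE.FIN
import Pool.Agent.K6.H74.PE.EX
import Pool.Agent.K6.H74.PE.PLQ
import Pool.Agent.K6.H74.PE.PLZ
import Pool.Agent.K6.H74.PE.SUR
import Pool.Agent.K6.H74.PE.MEET
import Pool.Agent.K6.H74.PE.RK
import Pool.Agent.K6.H74.PE.LNS
import Pool.Agent.K6.H74.PE.CSC
import Pool.Agent.K6.H74.PE.COV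
import Pool.Agent.K6.H74.PE.CWW
import Pool.Agent.K6.H74.PE.CSH
import Pool.Agent.K6.H74.PE.CYH
import Pool.Agent.K6.H74.PE.CTT
import Pool.Agent.K6.H74.PE.CXX
import Pool.Agent.K6.H74.PE.CYJ
import Pool.Agent.K6.H74.PE.CONE
import Pool.Agent.K6.H74.PE.GC
import Pool.Agent.K6.H74.PE.GA
import Pool.Agent.K6.H74.PE.GB
import Pool.Agent.K6.H74.PE.CY1
import Pool.Agent.K6.H74.PE.CY2
import Pool.Agent.K6.H74.PE.DIS

/-!
# The minimum positive deficiency of complete partial packings of `PG(3,q)` is `2` for all `q ≥ 3`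

`H74PK.IsSpread K S`: `S` is a set of `q^2+1` pairwise skew lines (two-dimensional subspaces of
`K^4`) of `PG(3,K)`, `q = |K|`.  `H74PK.IsCompletePartialPacking K d F`: `F` is a set of
`q^2+q+1-d` pairwise disjoint spreads such that no spread is disjoint from all of them.
`H74PK.minDef q` is the number `m(q)` of the problem.

Proof, `q` odd. On the Klein quadric we use the form `N(x) - e N(y) + s u`, `N(x) = x0^2 - e x1^2`,
`e` a nonsquare.  The regular spread `Sigma : x = 0` and the `q^2+q` spreads `S_[z:t]` (obtained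
from regular spreads sharing a regulus with `Sigma` by reversing that regulus) form a packing.  The
pair `Sigma, S_h` can be exchanged for `Sigma'_h, Y_h`; and a regulus `D` contained in
`S_j ∪ Y_h` whose opposite regulus lies in `S_l` can be moved: `T = (S_l \ D^opp) ∪ D`.  The
`q^2+q-1` spreads `T, Sigma'_h, S_i (i ≠ h,j,l)` leave a set of `2(q^2+1)` lines covering every
point twice and containing a pentagon (an explicit cyclic sequence of five lines, each meeting the
next), so this set is not a union of two spreads and contains no spread.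

Proof, `q ≥ 4` even. The form is `N(x) + N(y) + s u`, `N(a,b) = a^2+ab+ρ^2b^2` anisotropic.  There
is an analogous packing; for fixed `z` all but one of the `q` spreads `S_{z,t}` are exchanged for
`q-1` spreads `W_b`, and then `W_1` is exchanged for the regular spread `T`; again an explicit
pentagon remains.
-/

namespace Pool.Agent.Results.MP_9569f1_co.MinimumDeficiency

open H74PK Filter

theorem oddAll : S_FIN :=
  t_FIN t_EX t_SUR (t_MEET t_PLZ) (t_RK t_PLZ) (t_TR t_LC t_EQB) (t_KEY t_LC t_EQA) t_CONE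
    (t_GC t_CSC t_COV t_CSH t_CYH t_CTT t_CXX) (t_LNS t_PLZ (t_RK t_PLZ)) t_CY1 t_CY2 t_DIS

theorem evenAll : H74PE.S_FIN :=
  H74PE.t_FIN H74PE.t_EX H74PE.t_PLQ H74PE.t_SUR (H74PE.t_MEET H74PE.t_PLQ H74PE.t_PLZ)
    (H74PE.t_RK H74PE.t_PLQ H74PE.t_PLZ) (t_TR t_LC t_EQB) (t_KEY t_LC t_EQA) H74PE.t_CONE
    (H74PE.t_GC H74PE.t_CSC H74PE.t_CWW H74PE.t_CSH H74PE.t_CYH H74PE.t_CTT H74PE.t_CXX
      H74PE.t_CYJ) (H74PE.t_GA H74PE.t_COV) (H74PE.t_GB H74PE.t_COV)
    (H74PE.t_LNS H74PE.t_PLQ H74PE.t_PLZ (H74PE.t_RK H74PE.t_PLQ H74PE.t_PLZ)) H74PE.t_CY1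
    H74PE.t_CY2 H74PE.t_DIS

theorem def1All : S_DEF1 := t_DEF1 t_LC t_EQA t_EQB

theorem exTwo (K : Type) [Field K] [Finite K] (h : 3 ≤ Nat.card K) :
    ∃ F, IsCompletePartialPacking K 2 F := by
  rcases Nat.even_or_odd (Nat.card K) with he | ho
  · exact evenAll K he (by omega)
  · exact oddAll K ho

theorem leastTwo (K : Type) [Field K] [Finite K] (h : 3 ≤ Nat.card K) :
    IsLeast {d : ℕ | 0 < d ∧ ∃ F : Set (Set (Submodule K (Fin 4 → K))),
        IsCompletePartialPacking K d F} 2 := by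
  refine ⟨⟨by norm_num, exTwo K h⟩, ?_⟩
  rintro d ⟨hd, F, hFd⟩
  by_contra hlt
  have : d = 1 := by omega
  subst this
  exact def1All K F hFd

theorem minDefTwo (q : ℕ) (hq : IsPrimePow q) (h3 : 3 ≤ q) : minDef q = 2 := by
  have hl : IsLeast {d : ℕ | 0 < d ∧ ∃ (K : Type) (_ : Field K)
      (F : Set (Set (Submodule K (Fin 4 → K)))), Nat.card K = q ∧
        IsCompletePartialPacking K d F} 2 := by
    constructor
    · obtain ⟨p, k, hp, hk, rfl⟩ := hq
      have hp' : p.Prime := hp.nat_prime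
      have : Fact p.Prime := ⟨hp'⟩
      have hc : Nat.card (GaloisField p k) = p ^ k := GaloisField.card p k hk.ne'
      have : Finite (GaloisField p k) :=
        Nat.finite_of_card_ne_zero (by rw [hc]; exact pow_ne_zero _ hp'.ne_zero)
      obtain ⟨F, hF'⟩ := exTwo (GaloisField p k) (by rw [hc]; exact h3)
      exact ⟨by norm_num, GaloisField p k, inferInstance, F, hc, hF'⟩
    · rintro d ⟨hd, K, _, F, hc, hFd⟩
      by_contra hlt
      have : d = 1 := by omega
      subst this
      have : Finite K := Nat.finite_of_card_ne_zero (by rw [hc]; omega)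
      exact def1All K F hFd
  exact hl.csInf_eq

/-- For every finite field `K` with at least three elements the least positive deficiency of a
complete partial packing of `PG(3,K)` is `2`; hence `m(q) = 2` for every prime power `q ≥ 3`, and
`m(q)` does not tend to infinity as `q` runs through the prime powers. -/
theorem result :
    (∀ (K : Type) [Field K] [Finite K], 3 ≤ Nat.card K →
      IsLeast {d : ℕ | 0 < d ∧ ∃ F : Set (Set (Submodule K (Fin 4 → K))),
        IsCompletePartialPacking K d F} 2) ∧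
    (∀ q : ℕ, IsPrimePow q → 3 ≤ q → minDef q = 2) ∧
    ¬ Tendsto minDef (atTop ⊓ 𝓟 {q : ℕ | IsPrimePow q}) atTop := by
  refine ⟨fun K _ _ h => leastTwo K h, fun q h1 h2 => minDefTwo q h1 h2, ?_⟩
  intro h
  have h1 := h.eventually (eventually_ge_atTop 3)
  rw [eventually_inf_principal] at h1
  obtain ⟨N, hN⟩ := eventually_atTop.1 h1
  obtain ⟨p, hpN, hp⟩ := Nat.exists_infinite_primes (max N 3)
  have h2 := hN p (le_trans (le_max_left _ _) hpN) hp.isPrimePow
  have h3 : 3 ≤ p := le_trans (le_max_right _ _) hpN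
  rw [minDefTwo p hp.isPrimePow h3] at h2
  omega

end Pool.Agent.Results.MP_9569f1_co.MinimumDeficiency
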